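import Pool.Agent.W597.SV.Tool

open Matrix Pool.Agent.W856.SV MeasureTheory ProbabilityTheory
open scoped BigOperators ENNReal

namespace Pool.Agent.W597.SV

variable {μ : Measure ℝ} {K : ℝ} {ι : Type} [Fintype ι]

lemma rs_dot (S : ι → Prop) [DecidablePred S] (ν x : ι → ℝ) : rs S ν ⬝ᵥ x + rc S ν ⬝ᵥ x = ν ⬝ᵥ x := by
  unfold dotProduct rs rc
  rw [← Finset.sum_add_distrib]
  refine Finset.sum_congr rfl fun k _ => ?_
  by_cases hS : S k <;> simp [hS]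

lemma rs_self (S : ι → Prop) [DecidablePred S] (ν : ι → ℝ) :
    rs S ν ⬝ᵥ rs S ν + rc S ν ⬝ᵥ rc S ν = ν ⬝ᵥ ν := by
  unfold dotProduct rs rc
  rw [← Finset.sum_add_distrib]
  refine Finset.sum_congr rfl fun k _ => ?_
  by_cases hS : S k <;> simp [hS]

lemma rs_dep (S : ι → Prop) [DecidablePred S] (ν : ι → ℝ) (x y : ι → ℝ) (h : ∀ k, S k → x k = y k) :
    rs S ν ⬝ᵥ x = rs S ν ⬝ᵥ y := by
  unfold dotProduct rs
  refine Finset.sum_congr rfl fun k _ => ?_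
  by_cases hS : S k
  · simp [hS, h k hS]
  · simp [hS]

lemma rc_not (S : ι → Prop) [DecidablePred S] (ν : ι → ℝ) : rc (fun k => ¬ S k) ν = rs S ν := by
  funext k
  unfold rc rs
  by_cases hS : S k <;> simp [hS]

lemma rs_not (S : ι → Prop) [DecidablePred S] (ν : ι → ℝ) : rs (fun k => ¬ S k) ν = rc S ν := by
  funext k
  unfold rc rs
  by_cases hS : S k <;> simp [hS]

/-- one half -/
lemma half (h : Nice μ K) (C : ℝ) (hSB : SB1 μ C) (hC : 0 ≤ C)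
    (S : ι → Prop) [DecidablePred S] (ν : ι → ℝ) (m δ : ℝ) (hδ : 0 ≤ δ) (hm : m ≠ 0)
    (hpos : 0 < rc S ν ⬝ᵥ rc S ν) :
    Pr μ ι ({a | |ν ⬝ᵥ a + m| ≤ δ} ∩ {a | |m| / 4 ≤ |rs S ν ⬝ᵥ a|}) ≤
      ENNReal.ofReal (16 * C * δ / m ^ 2 * ((rs S ν ⬝ᵥ rs S ν) / Real.sqrt (rc S ν ⬝ᵥ rc S ν))) := by
  have hp := h.prob
  have hmr : Measurable (fun a : ι → ℝ => rs S ν ⬝ᵥ a) := by unfold dotProduct; fun_prop
  have hms : MeasurableSet {a : ι → ℝ | |m| / 4 ≤ |rs S ν ⬝ᵥ a|} := measurableSet_le measurable_const hmr.abs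
  have h1 := tool hp C hSB t_RES S ν m δ hδ hpos (Set.indicator {a : ι → ℝ | |m| / 4 ≤ |rs S ν ⬝ᵥ a|} 1)
    (measurable_one.indicator hms) (by
      intro x y hxy
      have e := rs_dep S ν x y hxy
      by_cases hx : |m| / 4 ≤ |rs S ν ⬝ᵥ x|
      · rw [Set.indicator_of_mem (show x ∈ {a : ι → ℝ | |m| / 4 ≤ |rs S ν ⬝ᵥ a|} from hx),
          Set.indicator_of_mem (show y ∈ {a : ι → ℝ | |m| / 4 ≤ |rs S ν ⬝ᵥ a|} from by rw [e] at hx; exact hx)]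
        rfl
      · rw [Set.indicator_of_notMem (show x ∉ {a : ι → ℝ | |m| / 4 ≤ |rs S ν ⬝ᵥ a|} from hx),
          Set.indicator_of_notMem (show y ∉ {a : ι → ℝ | |m| / 4 ≤ |rs S ν ⬝ᵥ a|} from by rw [e] at hx; exact hx)])
  rw [lintegral_indicator_one hms, lintegral_indicator_one hms, Measure.restrict_apply hms, Set.inter_comm] at h1
  refine h1.trans ?_
  have hm4 : 0 < |m| / 4 := by positivity
  have h2 := cheb h ι (rs S ν) (|m| / 4) hm4
  refine (mul_le_mul_left h2 _).trans ?_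
  rw [← ENNReal.ofReal_mul]
  · refine ENNReal.ofReal_le_ofReal (le_of_eq ?_)
    rw [div_pow, sq_abs]
    have : Real.sqrt (rc S ν ⬝ᵥ rc S ν) ≠ 0 := (Real.sqrt_pos.2 hpos).ne'
    field_simp
    ring
  · exact div_nonneg (Finset.sum_nonneg fun k _ => mul_self_nonneg _) (by positivity)

lemma both (h : Nice μ K) (C : ℝ) (hSB : SB1 μ C) (hC : 0 ≤ C)
    (S : ι → Prop) [DecidablePred S] (ν : ι → ℝ) (m δ : ℝ) (hδ : 0 ≤ δ) (hm : m ≠ 0) (hm2 : 2 * δ ≤ |m|)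
    (hpos : 0 < rc S ν ⬝ᵥ rc S ν) (hpos' : 0 < rs S ν ⬝ᵥ rs S ν) :
    Pr μ ι {a | |ν ⬝ᵥ a + m| ≤ δ} ≤
      ENNReal.ofReal (16 * C * δ / m ^ 2 * ((rs S ν ⬝ᵥ rs S ν) / Real.sqrt (rc S ν ⬝ᵥ rc S ν) +
        (rc S ν ⬝ᵥ rc S ν) / Real.sqrt (rs S ν ⬝ᵥ rs S ν))) := by
  have h1 := half h C hSB hC S ν m δ hδ hm hpos
  have h2 := half h C hSB hC (fun k => ¬ S k) ν m δ hδ hm (by rw [rc_not]; exact hpos')
  rw [rc_not, rs_not] at h2
  have h3 : {a : ι → ℝ | |ν ⬝ᵥ a + m| ≤ δ} ⊆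
      ({a | |ν ⬝ᵥ a + m| ≤ δ} ∩ {a | |m| / 4 ≤ |rs S ν ⬝ᵥ a|}) ∪
      ({a | |ν ⬝ᵥ a + m| ≤ δ} ∩ {a | |m| / 4 ≤ |rc S ν ⬝ᵥ a|}) := by
    intro a ha
    have ha' : |ν ⬝ᵥ a + m| ≤ δ := ha
    by_cases hx : |m| / 4 ≤ |rs S ν ⬝ᵥ a|
    · exact Or.inl ⟨ha, hx⟩
    · right
      refine ⟨ha, ?_⟩
      push Not at hx
      show |m| / 4 ≤ |rc S ν ⬝ᵥ a|
      have e := rs_dot S ν a
      have e1 : |m| ≤ |ν ⬝ᵥ a + m| + |ν ⬝ᵥ a| := by
        have := abs_sub (ν ⬝ᵥ a + m) (ν ⬝ᵥ a)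
        rwa [add_sub_cancel_left] at this
      have e2 : |ν ⬝ᵥ a| ≤ |rs S ν ⬝ᵥ a| + |rc S ν ⬝ᵥ a| := by
        rw [← e]; exact abs_add_le _ _
      linarith
  refine (measure_mono h3).trans ((measure_union_le _ _).trans ?_)
  rw [mul_add, ENNReal.ofReal_add]
  · exact add_le_add h1 h2
  · exact mul_nonneg (by positivity) (div_nonneg hpos'.le (Real.sqrt_nonneg _))
  · exact mul_nonneg (by positivity) (div_nonneg hpos.le (Real.sqrt_nonneg _))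

/-- a balanced set of coordinates -/
lemma balanced (ν : ι → ℝ) (h1 : ν ⬝ᵥ ν = 1) (h2 : ∀ j, ν j ^ 2 < 1 / 2) :
    ∃ S : Finset ι, 1 / 4 ≤ ∑ k ∈ S, ν k ^ 2 ∧ ∑ k ∈ S, ν k ^ 2 ≤ 3 / 4 := by
  classical
  have key : ∀ T : Finset ι, ∑ k ∈ T, ν k ^ 2 < 1 / 4 ∨
      ∃ S : Finset ι, 1 / 4 ≤ ∑ k ∈ S, ν k ^ 2 ∧ ∑ k ∈ S, ν k ^ 2 ≤ 3 / 4 := by
    intro T
    induction T using Finset.induction_on with
    | empty => left; simp
    | insert a s ha ih =>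
      rcases ih with h | h
      · rcases lt_or_ge (∑ k ∈ insert a s, ν k ^ 2) (1 / 4) with h' | h'
        · exact Or.inl h'
        · right
          refine ⟨insert a s, h', ?_⟩
          rw [Finset.sum_insert ha]
          have := h2 a
          linarith
      · exact Or.inr h
  rcases key Finset.univ with h | h
  · have : ∑ k, ν k ^ 2 = 1 := by
      rw [← h1]
      unfold dotProduct
      refine Finset.sum_congr rfl fun k _ => ?_
      ring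
    rw [this] at h
    norm_num at h
  · exact h

lemma rs_finset (S : Finset ι) [DecidablePred (fun k => k ∈ S)] (ν : ι → ℝ) :
    rs (fun k => k ∈ S) ν ⬝ᵥ rs (fun k => k ∈ S) ν = ∑ k ∈ S, ν k ^ 2 := by
  unfold dotProduct rs
  have : ∀ k, ((if k ∈ S then ν k else 0) * (if k ∈ S then ν k else 0)) = if k ∈ S then ν k ^ 2 else 0 := by
    intro k
    split_ifs
    · ring
    · ring
  simp only [this]
  rw [← Finset.sum_filter]
  refine Finset.sum_congr ?_ fun k _ => rfl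
  ext k
  simp

lemma rs_single [DecidableEq ι] (j : ι) (ν : ι → ℝ) :
    rs (fun k => k = j) ν ⬝ᵥ rs (fun k => k = j) ν = ν j ^ 2 := by
  unfold dotProduct rs
  have : ∀ k, ((if k = j then ν k else 0) * (if k = j then ν k else 0)) = if k = j then ν k ^ 2 else 0 := by
    intro k
    split_ifs
    · ring
    · ring
  simp only [this]
  simp

theorem t_FAR' (μ : Measure ℝ) (K : ℝ) (h : Nice μ K) (C : ℝ) (hC : 0 < C) (hSB : SB1 μ C) (ι : Type)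
    [Fintype ι] (ν : ι → ℝ) (hν : ν ⬝ᵥ ν = 1) (θ m δ : ℝ) (hθ : 0 < θ) (hθ1 : θ ≤ 1)
    (hj : ∀ j, ν j ^ 2 ≤ 1 - θ ^ 2) (hm : m ≠ 0) (hδ : 0 ≤ δ) (hm2 : 2 * δ ≤ |m|) :
    Pr μ ι {a | |ν ⬝ᵥ a + m| ≤ δ} ≤ ENNReal.ofReal (48 * C * δ / (θ * m ^ 2)) := by
  classical
  have hpre : 0 ≤ 16 * C * δ / m ^ 2 := by positivity
  have hfin : ∀ X : ℝ, X ≤ 3 / θ → 16 * C * δ / m ^ 2 * X ≤ 48 * C * δ / (θ * m ^ 2) := by
    intro X hX
    refine (mul_le_mul_of_nonneg_left hX hpre).trans (le_of_eq ?_)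
    field_simp
    ring
  have hinv : 1 ≤ 1 / θ := by rw [le_div_iff₀ hθ]; linarith
  by_cases hcase : ∃ j, 1 / 2 ≤ ν j ^ 2
  · obtain ⟨j, hjj⟩ := hcase
    have e1 := rs_single j ν
    have e2 := rs_self (fun k => k = j) ν
    rw [e1, hν] at e2
    have e3 : rc (fun k => k = j) ν ⬝ᵥ rc (fun k => k = j) ν = 1 - ν j ^ 2 := by linarith
    have hθ2 : 0 < θ ^ 2 := by positivity
    have h1 := both h C hSB hC.le (fun k => k = j) ν m δ hδ hm hm2 (by rw [e3]; have := hj j; linarith)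
      (by rw [e1]; linarith)
    refine h1.trans (ENNReal.ofReal_le_ofReal (hfin _ ?_))
    rw [e1, e3]
    have f1 : ν j ^ 2 / Real.sqrt (1 - ν j ^ 2) ≤ 1 / θ := by
      have g1 : θ ≤ Real.sqrt (1 - ν j ^ 2) := by
        rw [Real.le_sqrt' hθ]
        have := hj j
        linarith
      have g2 : ν j ^ 2 ≤ 1 := by have := hj j; linarith
      exact div_le_div₀ zero_le_one g2 hθ g1
    have f2 : (1 - ν j ^ 2) / Real.sqrt (ν j ^ 2) ≤ 1 := by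
      have g1 : 1 / 2 ≤ Real.sqrt (ν j ^ 2) := by
        rw [Real.le_sqrt' (by norm_num)]
        linarith
      rw [div_le_one (by linarith)]
      linarith
    have : 3 / θ = 1 / θ + 2 * (1 / θ) := by ring
    linarith
  · push Not at hcase
    obtain ⟨S, hS1, hS2⟩ := balanced ν hν hcase
    have e1 := rs_finset S ν
    have e2 := rs_self (fun k => k ∈ S) ν
    rw [e1, hν] at e2
    have e3 : rc (fun k => k ∈ S) ν ⬝ᵥ rc (fun k => k ∈ S) ν = 1 - ∑ k ∈ S, ν k ^ 2 := by linarith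
    have h1 := both h C hSB hC.le (fun k => k ∈ S) ν m δ hδ hm hm2 (by rw [e3]; linarith)
      (by rw [e1]; linarith)
    refine h1.trans (ENNReal.ofReal_le_ofReal (hfin _ ?_))
    rw [e1, e3]
    set s := ∑ k ∈ S, ν k ^ 2 with hs
    have f1 : s / Real.sqrt (1 - s) ≤ 3 / 2 := by
      have g1 : 1 / 2 ≤ Real.sqrt (1 - s) := by
        rw [Real.le_sqrt' (by norm_num)]
        linarith
      rw [div_le_iff₀ (by linarith)]
      linarith
    have f2 : (1 - s) / Real.sqrt s ≤ 3 / 2 := by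
      have g1 : 1 / 2 ≤ Real.sqrt s := by
        rw [Real.le_sqrt' (by norm_num)]
        linarith
      rw [div_le_iff₀ (by linarith)]
      linarith
    have : 3 / θ = 3 * (1 / θ) := by ring
    linarith

theorem t_FAR (hs : S_SB) : S_FAR := by
  intro μ K h
  obtain ⟨C, hC, hSB, _, _⟩ := hs μ K h
  refine ⟨48 * C, by positivity, ?_⟩
  intro ι _ ν hν θ m δ hθ hθ1 hj hm hδ hm2
  exact t_FAR' μ K h C hC hSB ι ν hν θ m δ hθ hθ1 hj hm hδ hm2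

end Pool.Agent.W597.SV
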