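import Pool.Agent.W597.SV.Row

open Matrix Pool.Agent.W856.SV
open scoped BigOperators

namespace Pool.Agent.W597.SV

variable {ι : Type} [Fintype ι] [DecidableEq ι]

lemma hsn_nonneg (P : Matrix ι ι ℝ) : 0 ≤ hsn P :=
  Finset.sum_nonneg fun l _ => Finset.sum_nonneg fun k _ => sq_nonneg _

lemma cs_mul (P : Matrix ι ι ℝ) (w : ι → ℝ) :
    (P *ᵥ w) ⬝ᵥ (P *ᵥ w) ≤ hsn P * ∑ k, w k ^ 2 := by
  unfold hsn
  rw [Finset.sum_mul]
  refine Finset.sum_le_sum fun l _ => ?_
  have h1 := Finset.sum_mul_sq_le_sq_mul_sq Finset.univ (fun k => P l k) w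
  show (∑ k, P l k * w k) * (∑ k, P l k * w k) ≤ _
  rw [← pow_two]
  exact h1

lemma ratio_ineq {e e' A τ : ℝ} (h1 : e ≤ e') (h2 : 0 ≤ e') (hA : 0 ≤ A) (hτ : 0 ≤ τ) (h3 : τ ≤ A / 3) :
    e / A ≤ 4 / 3 * (e' / (A + τ)) := by
  rcases eq_or_lt_of_le hA with h | h
  · rw [← h, div_zero]
    positivity
  · rw [div_le_iff₀ h]
    have h4 : 4 / 3 * (e' / (A + τ)) * A = e' * ((4 / 3 * A) / (A + τ)) := by ring
    rw [h4]
    have h5 : 1 ≤ (4 / 3 * A) / (A + τ) := by
      rw [le_div_iff₀ (by linarith)]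
      linarith
    nlinarith

theorem t_LOC : S_LOC := by
  intro ι _ _ B i j hj
  have hk : kap B i ≠ 0 := by
    intro h
    have : nuv B i j = 0 := by
      unfold nuv
      rw [h]
      simp
    rw [this] at hj
    norm_num at hj
  obtain ⟨P, hPi, hνν, hνP, hSm, hne, hR⟩ := row_struct B i hk
  set ν := nuv B i with hν
  have hνj : ν j ≠ 0 := by
    intro h
    rw [h] at hj
    norm_num at hj
  set t : ι → ℝ := fun k => -(P j k / ν j) with ht
  set Q := R1 P ν t with hQ
  have hQi : ∀ l, Q l i = 0 := by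
    intro l
    show P l i + ν l * -(P j i / ν j) = 0
    rw [hPi, hPi]; simp
  obtain ⟨u, lam, hq⟩ := exists_spec Q
  refine ⟨u, lam, hq.on, hq.lam0, ?_, ?_⟩
  · rw [hSm, ← hq.hs_eq, hsOf_eq, hsOf_eq]
    have he0 : 0 ≤ e2 Q := by
      rw [e2_spec hq]
      have := Finset.sum_sq_le_sq_sum_of_nonneg (s := Finset.univ) (f := lam) fun k _ => hq.lam0 k
      linarith
    have he : e2 P ≤ e2 Q := by
      rw [hQ, R1_e2 P ν t hνν hνP]
      have := cs_mul P t
      linarith
    have hh : hsn Q = hsn P + ∑ k, t k ^ 2 := R1_hsn P ν t hνν hνP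
    rw [hh]
    refine ratio_ineq he he0 (hsn_nonneg P) (Finset.sum_nonneg fun k _ => sq_nonneg _) ?_
    have h1 : ∀ k, t k ^ 2 ≤ (∑ l, P l k ^ 2) / 3 := by
      intro k
      have h2 : P j k = ∑ l, ((if l = j then 1 else 0) - ν j * ν l) * P l k := by
        have h3 : ∑ l, ν l * P l k = 0 := congrFun hνP k
        have h4 : ∀ l, ((if l = j then 1 else 0) - ν j * ν l) * P l k =
            (if l = j then P l k else 0) - ν j * (ν l * P l k) := by
          intro l
          split_ifs <;> ring
        simp only [h4, Finset.sum_sub_distrib, ← Finset.mul_sum, h3]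
        simp
      have h5 := Finset.sum_mul_sq_le_sq_mul_sq Finset.univ
        (fun l => (if l = j then 1 else 0) - ν j * ν l) (fun l => P l k)
      rw [← h2] at h5
      have h6 : ∑ l, ((if l = j then 1 else 0) - ν j * ν l) ^ 2 = 1 - ν j ^ 2 := by
        have h7 : ∀ l, ((if l = j then (1 : ℝ) else 0) - ν j * ν l) ^ 2 =
            (if l = j then (1 : ℝ) - 2 * ν j * ν l else 0) + ν j ^ 2 * (ν l * ν l) := by
          intro l
          split_ifs <;> ring
        have h8 : ∑ l, ν l * ν l = 1 := hνν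
        simp only [h7, Finset.sum_add_distrib, ← Finset.mul_sum, h8]
        simp
        ring
      rw [h6] at h5
      have h9 : 0 ≤ ∑ l, P l k ^ 2 := Finset.sum_nonneg fun l _ => sq_nonneg _
      have h10 : 0 < ν j ^ 2 := by positivity
      have h11 : t k ^ 2 = P j k ^ 2 / ν j ^ 2 := by
        simp only [ht, neg_sq, div_pow]
      rw [h11, div_le_iff₀ h10]
      nlinarith
    calc ∑ k, t k ^ 2 ≤ ∑ k, (∑ l, P l k ^ 2) / 3 := Finset.sum_le_sum fun k _ => h1 k
      _ = hsn P / 3 := by
          unfold hsn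
          rw [← Finset.sum_div, Finset.sum_comm]
  · intro R hD
    obtain ⟨hdet, hinv⟩ := hR R hD
    set D := ν ⬝ᵥ R with hDdef
    set y := R ᵥ* P with hy
    have hyi : y i = 0 := by
      show ∑ m, R m * P m i = 0
      simp [hPi]
    set w : ι → ℝ := fun k => ((if k = i then 1 else 0) - y k) / D with hw
    rw [hinv]
    have hwi : w i = 1 / D := by simp [hw, hyi]
    have hwk : ∀ k, k ≠ i → w k = - y k / D := by
      intro k hk
      simp [hw, hk]
    have hGi : ∀ l, R1 P ν w l i = ν l / D := by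
      intro l
      show P l i + ν l * w i = ν l / D
      rw [hwi, hPi]; ring
    have hGk : ∀ l k, k ≠ i → R1 P ν w l k = P l k - ν l * y k / D := by
      intro l k hk
      show P l k + ν l * w k = _
      rw [hwk k hk]; ring
    have hyQ : ∀ k, (R ᵥ* Q) k = y k - D * (P j k / ν j) := by
      intro k
      show ∑ l, R l * (P l k + ν l * -(P j k / ν j)) = _
      have h1 : ∀ l, R l * (P l k + ν l * -(P j k / ν j)) = R l * P l k - (ν l * R l) * (P j k / ν j) := by
        intro l; ring
      simp only [h1, Finset.sum_sub_distrib, ← Finset.sum_mul]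
      rfl
    refine ⟨?_, ?_, ?_⟩
    · rw [hGi]
      exact div_ne_zero hνj hD
    · rw [hq.bet_eq' R]
      refine Finset.sum_congr rfl fun k _ => ?_
      by_cases hk : k = i
      · rw [if_pos hk, hk, hyQ, hPi, hyi]; simp
      · rw [if_neg hk, hGi, hGk j k hk, hyQ]
        have h1 : (P j k - ν j * y k / D) / (ν j / D) = -(y k - D * (P j k / ν j)) := by
          field_simp
          ring
        rw [h1, neg_sq]
    · have hEm : Em (R1 P ν w) i j = Q := by
        ext l k
        show R1 P ν w l k - R1 P ν w l i * R1 P ν w j k / R1 P ν w j i = Q l k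
        by_cases hk : k = i
        · rw [hk, hQi]
          have h1 : R1 P ν w j i ≠ 0 := by
            rw [hGi]
            exact div_ne_zero hνj hD
          field_simp
          ring
        · rw [hGi, hGi, hGk l k hk, hGk j k hk]
          show _ = P l k + ν l * -(P j k / ν j)
          field_simp
          ring
      unfold hsE
      rw [hEm, hq.hs_eq]

end Pool.Agent.W597.SV
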