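import Pool.Agent.W856.SV.Stms

open Matrix Pool.Agent.W856.SV MeasureTheory ProbabilityTheory
open scoped BigOperators ENNReal

namespace Pool.Agent.W597.SV

instance pr_prob (μ : Measure ℝ) [IsProbabilityMeasure μ] (ι : Type) [Fintype ι] :
    IsProbabilityMeasure (Pr μ ι) := by unfold Pr; infer_instance

lemma mp_ite (μ : Measure ℝ) [IsProbabilityMeasure μ] (ι : Type) [Fintype ι] (S : ι → Prop)
    [DecidablePred S] :
    MeasurePreserving (fun p : (ι → ℝ) × (ι → ℝ) => fun k => if S k then p.2 k else p.1 k)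
      ((Pr μ ι).prod (Pr μ ι)) (Pr μ ι) := by
  have hm : Measurable (fun p : (ι → ℝ) × (ι → ℝ) => fun k => if S k then p.2 k else p.1 k) := by
    rw [measurable_pi_iff]
    intro k
    by_cases h : S k
    · simp only [if_pos h]
      exact (measurable_pi_apply k).comp measurable_snd
    · simp only [if_neg h]
      exact (measurable_pi_apply k).comp measurable_fst
  refine ⟨hm, ?_⟩
  have : Measure.pi (fun _ : ι => μ) =
      ((Pr μ ι).prod (Pr μ ι)).map (fun p : (ι → ℝ) × (ι → ℝ) => fun k => if S k then p.2 k else p.1 k) := by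
    refine Measure.pi_eq fun s hs => ?_
    rw [Measure.map_apply hm (MeasurableSet.univ_pi hs)]
    have h1 : (fun p : (ι → ℝ) × (ι → ℝ) => fun k => if S k then p.2 k else p.1 k) ⁻¹' (Set.univ.pi s) =
        (Set.univ.pi fun k => if S k then Set.univ else s k) ×ˢ
          (Set.univ.pi fun k => if S k then s k else Set.univ) := by
      ext p
      simp only [Set.mem_preimage, Set.mem_univ_pi, Set.mem_prod]
      constructor
      · intro h
        constructor
        · intro k
          have := h k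
          by_cases hS : S k
          · simp [hS]
          · simpa [hS] using this
        · intro k
          have := h k
          by_cases hS : S k
          · simpa [hS] using this
          · simp [hS]
      · rintro ⟨h1, h2⟩ k
        by_cases hS : S k
        · simpa [hS] using h2 k
        · simpa [hS] using h1 k
    rw [h1, Measure.prod_prod]
    unfold Pr
    rw [Measure.pi_pi, Measure.pi_pi, ← Finset.prod_mul_distrib]
    refine Finset.prod_congr rfl fun k _ => ?_
    by_cases hS : S k <;> simp [hS]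
  exact this.symm

theorem t_RES : S_RES := by
  intro μ hμ ι _ S _ F hF
  have h1 := mp_ite μ ι S
  rw [← h1.lintegral_comp hF]
  have hpr : IsProbabilityMeasure (Pr μ ι) := by unfold Pr; infer_instance
  exact lintegral_prod _ (hF.comp h1.measurable).aemeasurable

theorem t_RES1 (μ : Measure ℝ) (hμ : IsProbabilityMeasure μ) (ι : Type) [Fintype ι] [DecidableEq ι]
    (i : ι) (F : (ι → ℝ) → ℝ≥0∞) (hF : Measurable F) :
    ∫⁻ x, F x ∂(Pr μ ι) = ∫⁻ x, ∫⁻ t, F (Function.update x i t) ∂μ ∂(Pr μ ι) := by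
  rw [t_RES μ hμ ι (fun k => k = i) F hF]
  refine lintegral_congr fun x => ?_
  have h1 : MeasurePreserving (Function.eval i) (Pr μ ι) μ := measurePreserving_eval (fun _ : ι => μ) i
  have h2 : Measurable (fun t => F (Function.update x i t)) := hF.comp (measurable_update x)
  have h3 := h1.lintegral_comp h2
  rw [← h3]
  refine lintegral_congr fun y => ?_
  congr 1
  funext k
  by_cases hk : k = i
  · subst hk; simp
  · simp [hk]

section
variable {μ : Measure ℝ} {K : ℝ}

lemma memLp_id (h : Nice μ K) : MemLp (fun x : ℝ => x) 2 μ := by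
  have h0 : AEStronglyMeasurable (fun x : ℝ => x) μ := measurable_id.aestronglyMeasurable
  rw [memLp_two_iff_integrable_sq h0]
  exact h.sq

lemma lin_memLp (h : Nice μ K) {ι : Type} [Fintype ι] (w : ι → ℝ) :
    MemLp (fun a : ι → ℝ => w ⬝ᵥ a) 2 (Pr μ ι) := by
  have hp := h.prob
  unfold dotProduct
  refine memLp_finsetSum _ fun i _ => ?_
  have h1 : MeasurePreserving (Function.eval i) (Pr μ ι) μ := measurePreserving_eval (fun _ : ι => μ) i
  exact ((memLp_id h).comp_measurePreserving h1).const_mul (w i)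

lemma lin_mean (h : Nice μ K) {ι : Type} [Fintype ι] (w : ι → ℝ) : ∫ a, w ⬝ᵥ a ∂(Pr μ ι) = 0 := by
  have hp := h.prob
  unfold dotProduct
  have h2 : ∀ i, ∫ a, w i * a i ∂(Pr μ ι) = 0 := by
    intro i
    have h1 : MeasurePreserving (Function.eval i) (Pr μ ι) μ := measurePreserving_eval (fun _ : ι => μ) i
    rw [integral_const_mul]
    have h3 : ∫ a, a i ∂(Pr μ ι) = ∫ x, x ∂μ := by
      have h4 := integral_map (μ := Pr μ ι) (φ := Function.eval i) (f := fun x : ℝ => x)
        h1.measurable.aemeasurable (by fun_prop)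
      rw [h1.map_eq] at h4
      exact h4.symm
    rw [h3, h.mean, mul_zero]
  rw [integral_finsetSum]
  · simp [h2]
  · intro i _
    have h1 : MeasurePreserving (Function.eval i) (Pr μ ι) μ := measurePreserving_eval (fun _ : ι => μ) i
    exact (((memLp_id h).comp_measurePreserving h1).integrable (by norm_num)).const_mul (w i)

theorem t_MOM : S_MOM := by
  intro μ K h ι _ w
  have hp := h.prob
  have hpr : IsProbabilityMeasure (Pr μ ι) := by unfold Pr; infer_instance
  have hL := lin_memLp h w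
  have hint : Integrable (fun a : ι → ℝ => (w ⬝ᵥ a) ^ 2) (Pr μ ι) := hL.integrable_sq
  rw [← ofReal_integral_eq_lintegral_ofReal hint (Filter.Eventually.of_forall fun a => sq_nonneg _)]
  congr 1
  rw [← variance_of_integral_eq_zero hL.1.aemeasurable (lin_mean h w)]
  have h1 := variance_sum_pi (μ := fun _ : ι => μ) (X := fun i => fun x : ℝ => w i * x)
    (fun i => (memLp_id h).const_mul (w i))
  have h2 : (∑ i, fun ω : ι → ℝ => w i * ω i) = fun a : ι → ℝ => w ⬝ᵥ a := by
    funext a
    rw [Finset.sum_apply]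
    rfl
  rw [h2] at h1
  have h3 : Var[fun a : ι → ℝ => w ⬝ᵥ a; Pr μ ι] = ∑ i, Var[fun x : ℝ => w i * x; μ] := h1
  rw [h3]
  unfold dotProduct
  refine Finset.sum_congr rfl fun i _ => ?_
  rw [variance_const_mul]
  have h4 : Var[fun x : ℝ => x; μ] = 1 := by
    have h5 : AEMeasurable (fun x : ℝ => x) μ := measurable_id.aemeasurable
    rw [variance_of_integral_eq_zero h5 h.mean]
    exact h.var
  rw [h4]; ring

theorem cheb (h : Nice μ K) (ι : Type) [Fintype ι] (w : ι → ℝ) (t : ℝ) (ht : 0 < t) :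
    Pr μ ι {a | t ≤ |w ⬝ᵥ a|} ≤ ENNReal.ofReal (w ⬝ᵥ w / t ^ 2) := by
  have hm : Measurable (fun a : ι → ℝ => ENNReal.ofReal ((w ⬝ᵥ a) ^ 2)) := by
    refine ENNReal.measurable_ofReal.comp ?_
    have : Measurable (fun a : ι → ℝ => w ⬝ᵥ a) := by unfold dotProduct; fun_prop
    exact this.pow_const 2
  have h1 := meas_ge_le_lintegral_div (μ := Pr μ ι) hm.aemeasurable (ε := ENNReal.ofReal (t ^ 2))
    (by simp; positivity) ENNReal.ofReal_ne_top
  rw [t_MOM μ K h ι w] at h1
  rw [ENNReal.ofReal_div_of_pos (by positivity)]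
  refine le_trans (measure_mono ?_) h1
  intro a ha
  have ha' : t ≤ |w ⬝ᵥ a| := ha
  show ENNReal.ofReal (t ^ 2) ≤ ENNReal.ofReal ((w ⬝ᵥ a) ^ 2)
  refine ENNReal.ofReal_le_ofReal ?_
  rw [← sq_abs (w ⬝ᵥ a)]
  exact pow_le_pow_left₀ ht.le ha' 2

/-- restriction of a vector to the coordinates outside `S` -/
def rc {ι : Type} (S : ι → Prop) [DecidablePred S] (ν : ι → ℝ) : ι → ℝ := fun k => if S k then 0 else ν k

/-- restriction of a vector to the coordinates in `S` -/
def rs {ι : Type} (S : ι → Prop) [DecidablePred S] (ν : ι → ℝ) : ι → ℝ := fun k => if S k then ν k else 0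

theorem tool (hμ : IsProbabilityMeasure μ) (C : ℝ) (hSB : SB1 μ C) (hr : S_RES) {ι : Type} [Fintype ι]
    (S : ι → Prop) [DecidablePred S] (ν : ι → ℝ) (m δ : ℝ) (hδ : 0 ≤ δ)
    (hpos : 0 < rc S ν ⬝ᵥ rc S ν) (G : (ι → ℝ) → ℝ≥0∞) (hG : Measurable G)
    (hdep : ∀ x y, (∀ k, S k → x k = y k) → G x = G y) :
    ∫⁻ a in {a | |ν ⬝ᵥ a + m| ≤ δ}, G a ∂(Pr μ ι) ≤
      (∫⁻ a, G a ∂(Pr μ ι)) * ENNReal.ofReal (C * δ / Real.sqrt (rc S ν ⬝ᵥ rc S ν)) := by
  have hmν : Measurable (fun a : ι → ℝ => ν ⬝ᵥ a) := by unfold dotProduct; fun_prop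
  have hms : MeasurableSet {a : ι → ℝ | |ν ⬝ᵥ a + m| ≤ δ} :=
    measurableSet_le (hmν.add_const m).abs measurable_const
  rw [← lintegral_indicator hms, hr μ hμ ι (fun k => ¬ S k) _ (hG.indicator hms)]
  rw [← lintegral_mul_const _ hG]
  refine lintegral_mono fun x => ?_
  set z : ℝ := rs S ν ⬝ᵥ x + m with hz
  have h1 : ∀ y : ι → ℝ, ν ⬝ᵥ (fun k => if ¬ S k then y k else x k) + m = rc S ν ⬝ᵥ y + z := by
    intro y
    rw [hz]
    unfold dotProduct rc rs
    rw [← add_assoc, ← Finset.sum_add_distrib]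
    congr 1
    refine Finset.sum_congr rfl fun k _ => ?_
    by_cases hS : S k <;> simp [hS]
  have h2 : ∀ y : ι → ℝ, G (fun k => if ¬ S k then y k else x k) = G x := by
    intro y
    refine hdep _ _ fun k hk => ?_
    simp [hk]
  have h3 : ∀ y : ι → ℝ, Set.indicator {a : ι → ℝ | |ν ⬝ᵥ a + m| ≤ δ} G (fun k => if ¬ S k then y k else x k) =
      Set.indicator {y : ι → ℝ | |rc S ν ⬝ᵥ y + z| ≤ δ} (fun _ => G x) y := by
    intro y
    by_cases hy : |rc S ν ⬝ᵥ y + z| ≤ δ
    · rw [Set.indicator_of_mem (show y ∈ {y : ι → ℝ | |rc S ν ⬝ᵥ y + z| ≤ δ} from hy),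
        Set.indicator_of_mem, h2]
      show |ν ⬝ᵥ _ + m| ≤ δ
      rw [h1]; exact hy
    · rw [Set.indicator_of_notMem (show y ∉ {y : ι → ℝ | |rc S ν ⬝ᵥ y + z| ≤ δ} from hy),
        Set.indicator_of_notMem]
      intro h
      apply hy
      have : |ν ⬝ᵥ (fun k => if ¬ S k then y k else x k) + m| ≤ δ := h
      rwa [h1] at this
  simp only [h3]
  have hmrc : Measurable (fun a : ι → ℝ => rc S ν ⬝ᵥ a) := by unfold dotProduct; fun_prop
  rw [lintegral_indicator (measurableSet_le (hmrc.add_const z).abs measurable_const), setLIntegral_const]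
  exact mul_le_mul_right (hSB ι (rc S ν) z δ hpos hδ) _

end

end Pool.Agent.W597.SV
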