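import Pool.Agent.W597.SV.Spec

open Matrix Pool.Agent.W856.SV
open scoped BigOperators

namespace Pool.Agent.W597.SV

variable {ι : Type} [Fintype ι] [DecidableEq ι]

/-- `P + ν wᵀ` -/
def R1 (P : Matrix ι ι ℝ) (ν w : ι → ℝ) : Matrix ι ι ℝ := Matrix.of fun l k => P l k + ν l * w k

lemma R1_gram (P : Matrix ι ι ℝ) (ν w : ι → ℝ) (h1 : ν ⬝ᵥ ν = 1) (h2 : ν ᵥ* P = 0) (k l : ι) :
    ((R1 P ν w)ᵀ * R1 P ν w) k l = (Pᵀ * P) k l + w k * w l := by
  have e1 : ∀ k, ∑ m, ν m * P m k = 0 := fun k => congrFun h2 k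
  have e2 : ∑ m, ν m * ν m = 1 := h1
  rw [Matrix.mul_apply, Matrix.mul_apply]
  simp only [transpose_apply, R1, Matrix.of_apply]
  have e3 : ∀ m, (P m k + ν m * w k) * (P m l + ν m * w l) =
      P m k * P m l + w l * (ν m * P m k) + w k * (ν m * P m l) + w k * w l * (ν m * ν m) := by
    intro m; ring
  simp only [e3, Finset.sum_add_distrib, ← Finset.mul_sum, e1, e2]
  ring

lemma R1_hsn (P : Matrix ι ι ℝ) (ν w : ι → ℝ) (h1 : ν ⬝ᵥ ν = 1) (h2 : ν ᵥ* P = 0) :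
    hsn (R1 P ν w) = hsn P + ∑ k, w k ^ 2 := by
  have e1 : ∀ G : Matrix ι ι ℝ, hsn G = ∑ k, (Gᵀ * G) k k := by
    intro G
    unfold hsn
    rw [Finset.sum_comm]
    refine Finset.sum_congr rfl fun k _ => ?_
    rw [Matrix.mul_apply]
    refine Finset.sum_congr rfl fun l _ => ?_
    rw [transpose_apply]; ring
  rw [e1, e1 P, ← Finset.sum_add_distrib]
  refine Finset.sum_congr rfl fun k _ => ?_
  rw [R1_gram P ν w h1 h2]
  ring

lemma R1_g2 (P : Matrix ι ι ℝ) (ν w : ι → ℝ) (h1 : ν ⬝ᵥ ν = 1) (h2 : ν ᵥ* P = 0) :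
    ∑ k, ∑ l, ((R1 P ν w)ᵀ * R1 P ν w) k l ^ 2 =
      ∑ k, ∑ l, (Pᵀ * P) k l ^ 2 + 2 * ((P *ᵥ w) ⬝ᵥ (P *ᵥ w)) + (∑ k, w k ^ 2) ^ 2 := by
  have e1 : ∀ k l, ((R1 P ν w)ᵀ * R1 P ν w) k l ^ 2 =
      (Pᵀ * P) k l ^ 2 + 2 * (w k * ((Pᵀ * P) k l * w l)) + w k ^ 2 * w l ^ 2 := by
    intro k l
    rw [R1_gram P ν w h1 h2]; ring
  have e2 : (P *ᵥ w) ⬝ᵥ (P *ᵥ w) = ∑ k, ∑ l, w k * ((Pᵀ * P) k l * w l) := by
    have e3 : (P *ᵥ w) ⬝ᵥ (P *ᵥ w) = w ⬝ᵥ ((Pᵀ * P) *ᵥ w) := by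
      rw [← mulVec_mulVec, dotProduct_mulVec w, vecMul_transpose]
    rw [e3]
    unfold dotProduct mulVec dotProduct
    refine Finset.sum_congr rfl fun k _ => ?_
    rw [Finset.mul_sum]
  rw [e2]
  simp only [e1, Finset.sum_add_distrib]
  congr 1
  · congr 1
    rw [Finset.mul_sum]
    refine Finset.sum_congr rfl fun k _ => ?_
    rw [Finset.mul_sum]
  · rw [pow_two (∑ k, w k ^ 2), Finset.sum_mul_sum]

lemma R1_e2 (P : Matrix ι ι ℝ) (ν w : ι → ℝ) (h1 : ν ⬝ᵥ ν = 1) (h2 : ν ᵥ* P = 0) :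
    e2 (R1 P ν w) = e2 P + 2 * (hsn P * ∑ k, w k ^ 2 - (P *ᵥ w) ⬝ᵥ (P *ᵥ w)) := by
  unfold e2
  rw [R1_hsn P ν w h1 h2, R1_g2 P ν w h1 h2]
  ring

lemma tr2_gram (P : Matrix ι ι ℝ) : ((P * Pᵀ) * (P * Pᵀ)).trace = ∑ k, ∑ l, (Pᵀ * P) k l ^ 2 := by
  have e1 : ((P * Pᵀ) * (P * Pᵀ)).trace = ((Pᵀ * P) * (Pᵀ * P)).trace := by
    rw [Matrix.mul_assoc, Matrix.trace_mul_comm, ← Matrix.mul_assoc, ← Matrix.mul_assoc]
  rw [e1]
  unfold Matrix.trace
  refine Finset.sum_congr rfl fun k _ => ?_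
  rw [Matrix.diag_apply, Matrix.mul_apply]
  refine Finset.sum_congr rfl fun l _ => ?_
  have e2 : (Pᵀ * P) l k = (Pᵀ * P) k l := by
    have : (Pᵀ * P)ᵀ = Pᵀ * P := by rw [transpose_mul, transpose_transpose]
    rw [← this, transpose_apply, this]
  rw [e2]; ring

lemma tr_hsn (P : Matrix ι ι ℝ) : (P * Pᵀ).trace = hsn P := SpecD.tr_sum P

lemma e2_spec {P : Matrix ι ι ℝ} {u : ι → ι → ℝ} {lam : ι → ℝ} (h : SpecD P u lam) :
    e2 P = (∑ k, lam k) ^ 2 - ∑ k, lam k ^ 2 := by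
  unfold e2
  rw [← tr2_gram, ← tr_hsn, h.tr_eq, h.tr2_eq]

lemma hsn_spec {P : Matrix ι ι ℝ} {u : ι → ι → ℝ} {lam : ι → ℝ} (h : SpecD P u lam) :
    hsn P = ∑ k, lam k := by
  rw [← tr_hsn, h.tr_eq]

lemma hsOf_eq (P : Matrix ι ι ℝ) : hsOf (P * Pᵀ) = e2 P / hsn P := by
  unfold hsOf e2
  rw [tr2_gram, tr_hsn]

lemma adj_row (B : Matrix ι ι ℝ) (i j : ι) (R : ι → ℝ) :
    (B.updateRow i R).adjugate j i = B.adjugate j i := by
  rw [adjugate_apply, adjugate_apply, updateRow_idem]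

lemma det_row (B : Matrix ι ι ℝ) (i : ι) (R : ι → ℝ) : (B.updateRow i R).det = kap B i ⬝ᵥ R := by
  rw [det_eq_sum_mul_adjugate_row _ i]
  unfold dotProduct
  refine Finset.sum_congr rfl fun j _ => ?_
  rw [updateRow_self, adj_row]
  unfold kap
  ring

lemma row_perp (B : Matrix ι ι ℝ) (i k : ι) (h : k ≠ i) : B k ⬝ᵥ kap B i = 0 := by
  have h1 : (B * B.adjugate) k i = 0 := by
    rw [mul_adjugate, Matrix.smul_apply, one_apply_ne h, smul_zero]
  rw [← h1, Matrix.mul_apply]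
  rfl

/-- structure of the inverse -/
theorem row_struct (B : Matrix ι ι ℝ) (i : ι) (hk : kap B i ≠ 0) :
    ∃ P : Matrix ι ι ℝ, (∀ l, P l i = 0) ∧ nuv B i ⬝ᵥ nuv B i = 1 ∧ nuv B i ᵥ* P = 0 ∧
      Sm B i = P * Pᵀ ∧ (∀ k, k ≠ i → ∃ l, P l k ≠ 0) ∧
      ∀ R : ι → ℝ, nuv B i ⬝ᵥ R ≠ 0 → (B.updateRow i R).det ≠ 0 ∧
        (B.updateRow i R)⁻¹ = R1 P (nuv B i)
          (fun k => ((if k = i then 1 else 0) - (R ᵥ* P) k) / (nuv B i ⬝ᵥ R)) := by
  set ν := nuv B i with hν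
  have hkk : 0 < kap B i ⬝ᵥ kap B i := by
    have h1 : 0 ≤ kap B i ⬝ᵥ kap B i := Finset.sum_nonneg fun j _ => mul_self_nonneg _
    refine lt_of_le_of_ne h1 fun h => hk ?_
    exact dotProduct_self_eq_zero.1 h.symm
  set s := Real.sqrt (kap B i ⬝ᵥ kap B i) with hs
  have hs0 : 0 < s := Real.sqrt_pos.2 hkk
  have hs2 : s * s = kap B i ⬝ᵥ kap B i := Real.mul_self_sqrt hkk.le
  have hkν : kap B i = s • ν := by
    funext j
    rw [Pi.smul_apply, smul_eq_mul, hν]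
    unfold nuv
    rw [← hs]
    field_simp
  have hνν : ν ⬝ᵥ ν = 1 := by
    have h1 : kap B i ⬝ᵥ kap B i = s * s * (ν ⬝ᵥ ν) := by
      conv_lhs => rw [hkν]
      rw [smul_dotProduct, dotProduct_smul, smul_eq_mul, smul_eq_mul]
      ring
    rw [← hs2] at h1
    have h2 : 0 < s * s := mul_pos hs0 hs0
    nlinarith
  have hperp : ∀ a, a ≠ i → B a ⬝ᵥ ν = 0 := by
    intro a ha
    have h1 := row_perp B i a ha
    rw [hkν, dotProduct_smul, smul_eq_mul] at h1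
    rcases mul_eq_zero.1 h1 with h | h
    · exact absurd h hs0.ne'
    · exact h
  have hdet : ∀ R, (B.updateRow i R).det = s * (ν ⬝ᵥ R) := by
    intro R
    rw [det_row, hkν, smul_dotProduct, smul_eq_mul]
  set Bh := B.updateRow i ν with hBh
  have hBdet : IsUnit Bh.det := by
    rw [hBh, hdet, hνν, mul_one]
    exact hs0.ne'.isUnit
  set Gh := Bh⁻¹ with hGh
  have hBG : Bh * Gh = 1 := Matrix.mul_nonsing_inv Bh hBdet
  have hGB : Gh * Bh = 1 := Matrix.nonsing_inv_mul Bh hBdet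
  have hBν : Bh *ᵥ ν = Pi.single i 1 := by
    funext a
    by_cases ha : a = i
    · rw [ha, Pi.single_eq_same, mulVec, hBh, updateRow_self, hνν]
    · rw [Pi.single_eq_of_ne ha, mulVec, hBh, updateRow_ne ha, hperp a ha]
  have hcol : ∀ l, Gh l i = ν l := by
    intro l
    have h1 : Gh *ᵥ (Bh *ᵥ ν) = ν := by rw [mulVec_mulVec, hGB, one_mulVec]
    rw [hBν, mulVec_single_one] at h1
    exact congrFun h1 l
  have hentry : ∀ a k, ∑ l, Bh a l * Gh l k = if a = k then 1 else 0 := by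
    intro a k
    rw [← Matrix.mul_apply, hBG, Matrix.one_apply]
  let P : Matrix ι ι ℝ := Matrix.of fun l k => if k = i then 0 else Gh l k
  have hPi : ∀ l, P l i = 0 := fun l => if_pos rfl
  have hPk : ∀ l k, k ≠ i → P l k = Gh l k := fun l k hk => if_neg hk
  have hνP : ν ᵥ* P = 0 := by
    funext k
    show ∑ l, ν l * P l k = 0
    by_cases hk : k = i
    · simp [hk, hPi]
    · have h1 := hentry i k
      rw [if_neg (fun h => hk h.symm)] at h1
      rw [← h1]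
      refine Finset.sum_congr rfl fun l _ => ?_
      rw [hPk l k hk, hBh, updateRow_self]
  have hBP : ∀ a k, a ≠ i → ∑ l, B a l * P l k = if a = k then 1 else 0 := by
    intro a k ha
    by_cases hk : k = i
    · simp [hk, hPi, ha]
    · have h1 := hentry a k
      rw [← h1]
      refine Finset.sum_congr rfl fun l _ => ?_
      rw [hPk l k hk, hBh, updateRow_ne ha]
  refine ⟨P, hPi, hνν, hνP, ?_, ?_, ?_⟩
  · have h1 : Sm B i = Gh * Ghᵀ - Matrix.vecMulVec ν ν := rfl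
    rw [h1]
    ext l m
    rw [Matrix.sub_apply, Matrix.mul_apply, Matrix.mul_apply, vecMulVec_apply]
    have h2 : ∑ k, Gh l k * Ghᵀ k m = ∑ k, (P l k * Pᵀ k m + if k = i then ν l * ν m else 0) := by
      refine Finset.sum_congr rfl fun k _ => ?_
      rw [transpose_apply, transpose_apply]
      by_cases hk : k = i
      · rw [hk, hPi, hPi, hcol, hcol]; simp
      · rw [hPk l k hk, hPk m k hk, if_neg hk, add_zero]
    rw [h2, Finset.sum_add_distrib]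
    simp
  · intro k hk
    by_contra hcon
    push Not at hcon
    have h1 := hBP k k hk
    rw [if_pos rfl] at h1
    simp [hcon] at h1
  · intro R hD
    have hdR : (B.updateRow i R).det ≠ 0 := by
      rw [hdet]
      exact mul_ne_zero hs0.ne' hD
    refine ⟨hdR, ?_⟩
    refine Matrix.inv_eq_right_inv ?_
    ext a k
    rw [Matrix.mul_apply, Matrix.one_apply]
    set w : ι → ℝ := (fun k => ((if k = i then 1 else 0) - (R ᵥ* P) k) / (ν ⬝ᵥ R)) with hw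
    have h3 : ∑ l, (B.updateRow i R) a l * R1 P ν w l k =
        ∑ l, (B.updateRow i R) a l * P l k + (∑ l, (B.updateRow i R) a l * ν l) * w k := by
      rw [Finset.sum_mul, ← Finset.sum_add_distrib]
      refine Finset.sum_congr rfl fun l _ => ?_
      simp only [R1, Matrix.of_apply]
      ring
    rw [h3]
    by_cases ha : a = i
    · rw [ha, updateRow_self]
      have h4 : ∑ l, R l * ν l = ν ⬝ᵥ R := dotProduct_comm R ν
      have h5 : ∑ l, R l * P l k = (R ᵥ* P) k := rfl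
      rw [h4, h5]
      simp only [hw]
      rw [mul_div_cancel₀ _ hD]
      by_cases hk : k = i
      · simp [hk]
      · rw [if_neg hk, if_neg (fun h => hk h.symm)]; ring
    · rw [updateRow_ne ha, hBP a k ha]
      have h4 : ∑ l, B a l * ν l = 0 := hperp a ha
      rw [h4, zero_mul, add_zero]

end Pool.Agent.W597.SV
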