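import Pool.Agent.W597.SV.Row

open Matrix Pool.Agent.W856.SV
open scoped BigOperators

namespace Pool.Agent.W597.SV

theorem t_STR : S_STR := by
  intro ι _ _ B i hk
  obtain ⟨P, hPi, hνν, hνP, hSm, hne, hR⟩ := row_struct B i hk
  obtain ⟨u, lam, hq⟩ := exists_spec P
  set ν := nuv B i with hν
  have hSν : (P * Pᵀ) *ᵥ ν = 0 := by
    rw [← mulVec_mulVec, mulVec_transpose, hνP, mulVec_zero]
  have hT0 : 0 ≤ ∑ k, lam k := Finset.sum_nonneg fun k _ => hq.lam0 k
  refine ⟨u, lam, ⟨hνν, hq.on, hq.lam0, ?_⟩, ?_, ?_, ?_⟩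
  · intro k hk
    have h1 := hq.eig_dot k ν
    rw [hSν, dotProduct_zero] at h1
    rcases mul_eq_zero.1 h1.symm with h | h
    · exact absurd h hk.ne'
    · exact h
  · rw [hSm, hq.hs_eq]
  · intro hcard
    rw [← hsn_spec hq]
    obtain ⟨k, hki⟩ : ∃ k, k ≠ i := by
      have hnt : Nontrivial ι := Fintype.one_lt_card_iff_nontrivial.1 (by omega)
      exact exists_ne i
    obtain ⟨l, hl⟩ := hne k hki
    unfold hsn
    have h1 : P l k ^ 2 ≤ ∑ l, ∑ k, P l k ^ 2 :=
      (Finset.single_le_sum (f := fun k => P l k ^ 2) (fun k _ => sq_nonneg _) (Finset.mem_univ k)).trans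
        (Finset.single_le_sum (f := fun l => ∑ k, P l k ^ 2)
          (fun l _ => Finset.sum_nonneg fun k _ => sq_nonneg _) (Finset.mem_univ l))
    have h2 : 0 < P l k ^ 2 := by positivity
    linarith
  · intro R hD
    obtain ⟨hdet, hinv⟩ := hR R hD
    set D := ν ⬝ᵥ R with hDdef
    set y := R ᵥ* P with hy
    have hyi : y i = 0 := by
      show ∑ m, R m * P m i = 0
      simp [hPi]
    set w : ι → ℝ := fun k => ((if k = i then 1 else 0) - y k) / D with hw
    rw [hinv]
    have hw2 : ∀ k, w k ^ 2 = ((if k = i then 1 else 0) + y k ^ 2) / D ^ 2 := by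
      intro k
      simp only [hw, div_pow]
      congr 1
      by_cases hk : k = i
      · rw [if_pos hk, hk, hyi]; ring
      · rw [if_neg hk]; ring
    have hwsum : ∑ k, w k ^ 2 = (1 + bet u lam R) / D ^ 2 := by
      simp only [hw2]
      rw [← Finset.sum_div, Finset.sum_add_distrib, hq.bet_eq' R]
      simp [← hy]
    have hPw : P *ᵥ w = (-(1 / D)) • ((P * Pᵀ) *ᵥ R) := by
      have h1 : (P * Pᵀ) *ᵥ R = P *ᵥ y := by rw [← mulVec_mulVec, mulVec_transpose]
      rw [h1]
      funext l
      rw [Pi.smul_apply, smul_eq_mul]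
      show ∑ k, P l k * w k = -(1 / D) * ∑ k, P l k * y k
      rw [Finset.mul_sum]
      refine Finset.sum_congr rfl fun k _ => ?_
      by_cases hk : k = i
      · rw [hk, hPi]; ring
      · simp only [hw, if_neg hk]; ring
    have hPw2 : (P *ᵥ w) ⬝ᵥ (P *ᵥ w) = (∑ k, lam k ^ 2 * (u k ⬝ᵥ R) ^ 2) / D ^ 2 := by
      rw [hPw, smul_dotProduct, dotProduct_smul, hq.sq_eq, smul_eq_mul, smul_eq_mul]
      field_simp
    have hD2 : 0 < D ^ 2 := by positivity
    have hhsn : hsn (R1 P ν w) = ∑ k, lam k + (1 + bet u lam R) / D ^ 2 := by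
      rw [R1_hsn P ν w hνν hνP, hsn_spec hq, hwsum]
    have hcoli : ∀ l, R1 P ν w l i = ν l / D := by
      intro l
      have h5 : w i = 1 / D := by
        simp [hw, hyi]
      show P l i + ν l * w i = ν l / D
      rw [h5, hPi]
      ring
    refine ⟨hdet, hcoli, hhsn, ?_, ?_⟩
    · unfold w2
      rw [hhsn]
      have h1 : col2 (R1 P ν w) i = 1 / D ^ 2 := by
        unfold col2
        simp only [hcoli, div_pow]
        rw [← Finset.sum_div]
        congr 1
        rw [← hνν]
        unfold dotProduct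
        refine Finset.sum_congr rfl fun l _ => ?_
        ring
      have h2 : ∑ k, ((R1 P ν w)ᵀ * R1 P ν w) i k ^ 2 = (1 + bet u lam R) / D ^ 2 * (1 / D ^ 2) := by
        have h3 : ∀ k, ((R1 P ν w)ᵀ * R1 P ν w) i k = w k * (1 / D) := by
          intro k
          rw [R1_gram P ν w hνν hνP]
          have h4 : (Pᵀ * P) i k = 0 := by
            rw [Matrix.mul_apply]
            simp [hPi]
          have h5 : w i = 1 / D := by
            simp [hw, hyi]
          rw [h4, h5]; ring
        simp only [h3, mul_pow]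
        rw [← Finset.sum_mul, hwsum]
        congr 1
        rw [div_pow, one_pow]
      rw [h1, h2]
      field_simp
      ring
    · rw [R1_e2 P ν w hνν hνP, e2_spec hq, hsn_spec hq, hwsum, hPw2]
      by_cases hT : ∑ k, lam k = 0
      · have hl : ∀ k, lam k = 0 := by
          intro k
          exact (Finset.sum_eq_zero_iff_of_nonneg (fun k _ => hq.lam0 k)).1 hT k (Finset.mem_univ k)
        simp [hl]
      · have hbt : bt u lam R = bet u lam R - (∑ k, lam k ^ 2 * (u k ⬝ᵥ R) ^ 2) / ∑ k, lam k := by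
          unfold bt bet
          rw [Finset.sum_div, ← Finset.sum_sub_distrib]
          refine Finset.sum_congr rfl fun k _ => ?_
          field_simp
        rw [hbt]
        unfold hs
        field_simp
        ring

end Pool.Agent.W597.SV
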