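import Pool.Agent.W856.SV.Stms

open Matrix Pool.Agent.W856.SV
open scoped BigOperators

namespace Pool.Agent.W597.SV

variable {ι : Type} [Fintype ι] [DecidableEq ι]

/-- spectral decomposition of `P Pᵀ` -/
structure SpecD (P : Matrix ι ι ℝ) (u : ι → ι → ℝ) (lam : ι → ℝ) : Prop where
  on : ON u
  lam0 : ∀ k, 0 ≤ lam k
  eig : ∀ k, (P * Pᵀ) *ᵥ (u k) = lam k • u k
  pars : ∀ x y : ι → ℝ, x ⬝ᵥ y = ∑ k, (u k ⬝ᵥ x) * (u k ⬝ᵥ y)

lemma exists_spec (P : Matrix ι ι ℝ) : ∃ u lam, SpecD P u lam := by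
  have hps : (P * Pᵀ).PosSemidef := by
    have := Matrix.posSemidef_self_mul_conjTranspose P
    rwa [Matrix.conjTranspose_eq_transpose_of_trivial] at this
  have hh : (P * Pᵀ).IsHermitian := hps.1
  let b := hh.eigenvectorBasis
  refine ⟨fun k => (b k : EuclideanSpace ℝ ι).ofLp, hh.eigenvalues, ?_, ?_, ?_, ?_⟩
  · intro k l
    have h1 := orthonormal_iff_ite.1 b.orthonormal k l
    rw [EuclideanSpace.inner_eq_star_dotProduct] at h1
    rw [dotProduct_comm]
    simpa using h1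
  · intro k
    exact hps.eigenvalues_nonneg k
  · intro k
    have := hh.mulVec_eigenvectorBasis k
    simpa using this
  · intro x y
    have h1 := b.sum_inner_mul_inner (WithLp.toLp 2 x) (WithLp.toLp 2 y)
    simp only [EuclideanSpace.inner_eq_star_dotProduct, star_trivial] at h1
    rw [dotProduct_comm x y, ← h1]
    refine Finset.sum_congr rfl fun k _ => ?_
    rw [dotProduct_comm y]

namespace SpecD

variable {P : Matrix ι ι ℝ} {u : ι → ι → ℝ} {lam : ι → ℝ}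

lemma symm (P : Matrix ι ι ℝ) (x y : ι → ℝ) : x ⬝ᵥ ((P * Pᵀ) *ᵥ y) = ((P * Pᵀ) *ᵥ x) ⬝ᵥ y := by
  rw [dotProduct_mulVec]
  congr 1
  rw [← mulVec_transpose, transpose_mul, transpose_transpose]

lemma eig_dot (h : SpecD P u lam) (k : ι) (x : ι → ℝ) :
    u k ⬝ᵥ ((P * Pᵀ) *ᵥ x) = lam k * (u k ⬝ᵥ x) := by
  rw [symm, h.eig, smul_dotProduct, smul_eq_mul]

lemma bet_eq (h : SpecD P u lam) (x : ι → ℝ) : bet u lam x = x ⬝ᵥ ((P * Pᵀ) *ᵥ x) := by
  rw [h.pars x]
  unfold bet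
  refine Finset.sum_congr rfl fun k _ => ?_
  rw [h.eig_dot]
  ring

lemma bet_eq' (h : SpecD P u lam) (x : ι → ℝ) : bet u lam x = ∑ k, (x ᵥ* P) k ^ 2 := by
  rw [h.bet_eq, ← mulVec_mulVec, dotProduct_mulVec, mulVec_transpose]
  unfold dotProduct
  refine Finset.sum_congr rfl fun k _ => ?_
  ring

lemma sq_eq (h : SpecD P u lam) (x : ι → ℝ) :
    ((P * Pᵀ) *ᵥ x) ⬝ᵥ ((P * Pᵀ) *ᵥ x) = ∑ k, lam k ^ 2 * (u k ⬝ᵥ x) ^ 2 := by
  rw [h.pars]
  refine Finset.sum_congr rfl fun k _ => ?_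
  rw [h.eig_dot]
  ring

lemma unit_sum (h : SpecD P u lam) (k : ι) : ∑ l, (u k l) ^ 2 = 1 := by
  have := h.on k k
  rw [if_pos rfl] at this
  rw [← this]
  unfold dotProduct
  refine Finset.sum_congr rfl fun l _ => ?_
  ring

lemma tr_eq (h : SpecD P u lam) : (P * Pᵀ).trace = ∑ k, lam k := by
  have h1 : ∀ l, (P * Pᵀ) l l = ∑ k, lam k * (u k l) ^ 2 := by
    intro l
    have h2 := h.bet_eq (Pi.single l 1)
    rw [mulVec_single_one, single_one_dotProduct] at h2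
    unfold bet at h2
    simp only [dotProduct_single_one] at h2
    rw [h2]
    rfl
  unfold Matrix.trace
  simp only [Matrix.diag_apply, h1]
  rw [Finset.sum_comm]
  refine Finset.sum_congr rfl fun k _ => ?_
  rw [← Finset.mul_sum, h.unit_sum, mul_one]

lemma tr2_eq (h : SpecD P u lam) : ((P * Pᵀ) * (P * Pᵀ)).trace = ∑ k, lam k ^ 2 := by
  have h1 : ∀ l, ((P * Pᵀ) * (P * Pᵀ)) l l = ∑ k, lam k ^ 2 * (u k l) ^ 2 := by
    intro l
    have h2 := h.sq_eq (Pi.single l 1)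
    rw [mulVec_single_one] at h2
    simp only [dotProduct_single_one] at h2
    rw [← h2]
    rw [Matrix.mul_apply]
    unfold dotProduct
    refine Finset.sum_congr rfl fun k _ => ?_
    have h3 : (P * Pᵀ) l k = (P * Pᵀ) k l := by
      have : (P * Pᵀ)ᵀ = P * Pᵀ := by rw [transpose_mul, transpose_transpose]
      rw [← this, transpose_apply, this]
    rw [h3]
    rfl
  unfold Matrix.trace
  simp only [Matrix.diag_apply, h1]
  rw [Finset.sum_comm]
  refine Finset.sum_congr rfl fun k _ => ?_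
  rw [← Finset.mul_sum, h.unit_sum, mul_one]

lemma hs_eq (h : SpecD P u lam) : hsOf (P * Pᵀ) = hs lam := by
  unfold hsOf hs
  rw [h.tr_eq, h.tr2_eq]

lemma tr_sum (P : Matrix ι ι ℝ) : (P * Pᵀ).trace = ∑ l, ∑ k, P l k ^ 2 := by
  unfold Matrix.trace
  refine Finset.sum_congr rfl fun l _ => ?_
  rw [Matrix.diag_apply, Matrix.mul_apply]
  refine Finset.sum_congr rfl fun k _ => ?_
  rw [transpose_apply]; ring

end SpecD

end Pool.Agent.W597.SV
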